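import Mathlib
import Pool.Agent.H596R3.CovLow

set_option autoImplicit false

namespace Pool.Agent.Results.MP_1000ca_al.LowerBound

/-- `G` is a finite group such that every group of order `p ^ n` is isomorphic to a
subgroup of `G`. -/
def IsCover (p n : ℕ) (G : Type) [Group G] : Prop :=
  Finite G ∧ ∀ (H : Type) [Group H], Nat.card H = p ^ n → ∃ K : Subgroup G, Nonempty (H ≃* K)

/-- The set of orders of the finite groups that contain every group of order `p ^ n`. -/
def coverOrders (p n : ℕ) : Set ℕ :=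
  {k | ∃ (G : Type) (_ : Group G), IsCover p n G ∧ Nat.card G = k}

/-- The order of a smallest finite group that contains every group of order `p ^ n`. -/
noncomputable def minCoverOrder (p n : ℕ) : ℕ := sInf (coverOrders p n)

/-- The symmetric group of degree `p ^ n` is a cover. -/
theorem coverOrders_nonempty (p n : ℕ) (hp : p.Prime) : (coverOrders p n).Nonempty := by
  refine ⟨_, Equiv.Perm (Fin (p ^ n)), inferInstance, ⟨inferInstance, ?_⟩, rfl⟩
  intro H _ hH
  have : Finite H := Nat.finite_of_card_ne_zero (by rw [hH]; exact pow_ne_zero _ hp.ne_zero)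
  have e : H ≃ Fin (p ^ n) := Finite.equivFinOfCardEq hH
  let f : H →* Equiv.Perm (Fin (p ^ n)) :=
    (Equiv.permCongrHom e).toMonoidHom.comp (MulAction.toPermHom H H)
  have hf : Function.Injective f := by
    show Function.Injective ((Equiv.permCongrHom e) ∘ (MulAction.toPermHom H H))
    exact (Equiv.permCongrHom e).injective.comp MulAction.toPerm_injective
  exact ⟨f.range, ⟨MonoidHom.ofInjective hf⟩⟩

/-- The order `p ^ (r * (d * (d - 1) / 2 - r))` is at most the `d`-th power of the order of a cover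
for `n = d + r`. -/
theorem count (p d r : ℕ) (hp : p.Prime) (hr : r ≤ d * (d - 1) / 2) (G : Type) [Group G]
    (h : IsCover p (d + r) G) : p ^ (r * (d * (d - 1) / 2 - r)) ≤ Nat.card G ^ d := by
  obtain ⟨hfin, h⟩ := h
  have : Fact p.Prime := ⟨hp⟩
  rw [← Pool.Agent.H596R3.CovLow.card_Prs] at hr ⊢
  refine Pool.Agent.H596R3.CovLow.count hr ?_
  intro H _ hH
  obtain ⟨K, ⟨e⟩⟩ := h H hH
  exact ⟨K.subtype.comp e.toMonoidHom, K.subtype_injective.comp e.injective⟩

theorem real_ineq (n : ℕ) (hn : 9 ≤ n) :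
    ((n - n / 2 : ℕ) : ℝ) * ((n : ℝ) ^ 2 / 8 - n) ≤
      ((n / 2 * ((n - n / 2) * ((n - n / 2) - 1) / 2 - n / 2) : ℕ) : ℝ) := by
  rcases Nat.even_or_odd' n with ⟨k, hk | hk⟩
  · subst hk
    have e1 : 2 * k / 2 = k := by omega
    have e2 : 2 * k - k = k := by omega
    rw [e1, e2]
    obtain ⟨j, rfl⟩ : ∃ j, k = j + 3 := ⟨k - 3, by omega⟩
    have e3 : (j + 3) * (j + 3 - 1) / 2 - (j + 3) = (j + 3) * j / 2 := by
      have e4 : j + 3 - 1 = j + 2 := by omega
      have e5 : (j + 3) * (j + 2) = (j + 3) * j + (j + 3) * 2 := by ring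
      rw [e4, e5, Nat.add_mul_div_right _ _ (by norm_num)]
      omega
    have e6 : 2 * ((j + 3) * j / 2) = (j + 3) * j := by
      apply Nat.mul_div_cancel'
      rcases Nat.even_or_odd' j with ⟨i, hi | hi⟩
      · exact Dvd.intro_left ((j + 3) * i) (by rw [hi]; ring)
      · exact Dvd.intro_left ((i + 2) * j) (by rw [hi]; ring)
    rw [e3]
    have e7 : (((j + 3) * j / 2 : ℕ) : ℝ) = ((j : ℝ) + 3) * j / 2 := by
      have := congrArg (fun x : ℕ => (x : ℝ)) e6
      push_cast at this
      linarith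
    push_cast [e7]
    have hj : (0 : ℝ) ≤ j := Nat.cast_nonneg j
    nlinarith [mul_nonneg hj hj]
  · subst hk
    have e1 : (2 * k + 1) / 2 = k := by omega
    have e2 : 2 * k + 1 - k = k + 1 := by omega
    rw [e1, e2]
    obtain ⟨j, rfl⟩ : ∃ j, k = j + 1 := ⟨k - 1, by omega⟩
    have e3 : (j + 1 + 1) * (j + 1 + 1 - 1) / 2 - (j + 1) = (j + 1) * j / 2 := by
      have e4 : j + 1 + 1 - 1 = j + 1 := by omega
      have e5 : (j + 1 + 1) * (j + 1) = (j + 1) * j + (j + 1) * 2 := by ring
      rw [e4, e5, Nat.add_mul_div_right _ _ (by norm_num)]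
      omega
    have e6 : 2 * ((j + 1) * j / 2) = (j + 1) * j := by
      apply Nat.mul_div_cancel'
      rcases Nat.even_or_odd' j with ⟨i, hi | hi⟩
      · exact Dvd.intro_left ((j + 1) * i) (by rw [hi]; ring)
      · exact Dvd.intro_left ((i + 1) * j) (by rw [hi]; ring)
    rw [e3]
    have e7 : (((j + 1) * j / 2 : ℕ) : ℝ) = ((j : ℝ) + 1) * j / 2 := by
      have := congrArg (fun x : ℕ => (x : ℝ)) e6
      push_cast at this
      linarith
    push_cast [e7]
    have hj : (0 : ℝ) ≤ j := Nat.cast_nonneg j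
    nlinarith [mul_nonneg hj hj]

/-- For every prime `p` and every `n` the order `m(p, n)` of a smallest finite group that
contains every group of order `p ^ n` satisfies `log_p m(p, n) ≥ n ^ 2 / 8 - n`. -/
theorem result (p n : ℕ) (hp : p.Prime) :
    IsLeast (coverOrders p n) (minCoverOrder p n) ∧
      (n : ℝ) ^ 2 / 8 - n ≤ Real.logb p (minCoverOrder p n) := by
  have hne := coverOrders_nonempty p n hp
  have hleast : IsLeast (coverOrders p n) (minCoverOrder p n) :=
    ⟨Nat.sInf_mem hne, fun a ha => Nat.sInf_le ha⟩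
  refine ⟨hleast, ?_⟩
  obtain ⟨G, iG, hcov, hcard⟩ := hleast.1
  have hfin : Finite G := hcov.1
  have hpos : 0 < minCoverOrder p n := by
    rw [← hcard]
    exact Nat.card_pos
  have hp1 : (1 : ℝ) < p := by exact_mod_cast hp.one_lt
  rcases Nat.lt_or_ge n 9 with h9 | h9
  · have h1 : (0 : ℝ) ≤ Real.logb p (minCoverOrder p n) :=
      Real.logb_nonneg hp1 (by exact_mod_cast hpos)
    have h2 : (n : ℝ) ≤ 8 := by exact_mod_cast Nat.le_of_lt_succ h9
    have h3 : (0 : ℝ) ≤ n := Nat.cast_nonneg n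
    nlinarith
  · have hd : n - n / 2 + n / 2 = n := by omega
    have hr : n / 2 ≤ (n - n / 2) * ((n - n / 2) - 1) / 2 := by
      rw [Nat.le_div_iff_mul_le (by norm_num)]
      exact Nat.mul_le_mul (by omega) (by omega)
    have h1 := count p (n - n / 2) (n / 2) hp hr G (by rw [hd]; exact hcov)
    rw [hcard] at h1
    have h2 : ((n / 2 * ((n - n / 2) * ((n - n / 2) - 1) / 2 - n / 2) : ℕ) : ℝ) ≤
        ((n - n / 2 : ℕ) : ℝ) * Real.logb p (minCoverOrder p n) := by
      have h3 : ((p : ℝ) ^ (n / 2 * ((n - n / 2) * ((n - n / 2) - 1) / 2 - n / 2)) : ℝ) ≤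
          (minCoverOrder p n : ℝ) ^ (n - n / 2) := by exact_mod_cast h1
      have h4 := Real.logb_le_logb_of_le hp1 (by positivity) h3
      rw [Real.logb_pow, Real.logb_pow, Real.logb_self_eq_one hp1, mul_one] at h4
      exact h4
    have h5 := (real_ineq n h9).trans h2
    have h6 : (0 : ℝ) < ((n - n / 2 : ℕ) : ℝ) := by
      have : 0 < n - n / 2 := by omega
      exact_mod_cast this
    exact le_of_mul_le_mul_left h5 h6

end Pool.Agent.Results.MP_1000ca_al.LowerBound
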