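import Mathlib
import Pool.Agent.H596L.Cnt
import Pool.Agent.H596L.Ana

set_option autoImplicit false

namespace Pool.Agent.Results.MP_1000ca_al.LowerQuarter

/-- `G` is a finite group such that every group of order `p ^ n` is isomorphic to a
subgroup of `G`. -/
def IsCover (p n : ℕ) (G : Type) [Group G] : Prop :=
  Finite G ∧ ∀ (H : Type) [Group H], Nat.card H = p ^ n → ∃ K : Subgroup G, Nonempty (H ≃* K)

/-- The set of orders of the finite groups that contain every group of order `p ^ n`. -/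
def coverOrders (p n : ℕ) : Set ℕ :=
  {k | ∃ (G : Type) (_ : Group G), IsCover p n G ∧ Nat.card G = k}

/-- The order of a smallest finite group that contains every group of order `p ^ n`. -/
noncomputable def minCoverOrder (p n : ℕ) : ℕ := sInf (coverOrders p n)

/-- The symmetric group of degree `p ^ n` is a cover. -/
theorem coverOrders_nonempty (p n : ℕ) (hp : p.Prime) : (coverOrders p n).Nonempty := by
  refine ⟨_, Equiv.Perm (Fin (p ^ n)), inferInstance, ⟨inferInstance, ?_⟩, rfl⟩
  intro H _ hH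
  have : Finite H := Nat.finite_of_card_ne_zero (by rw [hH]; exact pow_ne_zero _ hp.ne_zero)
  have e : H ≃ Fin (p ^ n) := Finite.equivFinOfCardEq hH
  let f : H →* Equiv.Perm (Fin (p ^ n)) :=
    (Equiv.permCongrHom e).toMonoidHom.comp (MulAction.toPermHom H H)
  have hf : Function.Injective f := by
    show Function.Injective ((Equiv.permCongrHom e) ∘ (MulAction.toPermHom H H))
    exact (Equiv.permCongrHom e).injective.comp MulAction.toPerm_injective
  exact ⟨f.range, ⟨MonoidHom.ofInjective hf⟩⟩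

/-- The counting inequality: the marked quotients of the class-`k` groups give many tuples. -/
theorem count (p n k d t : ℕ) (hp : p.Prime) (hk : 2 ≤ k)
    (hn : t + ∑ e ∈ Finset.range d, ∑ i ∈ Finset.range (k - 1), e ^ i ≤ n)
    (ht : t ≤ ∑ a ∈ Finset.range d, a.descFactorial (k - 1)) (G : Type) [Group G]
    (h : IsCover p n G) :
    p ^ (t * (∑ a ∈ Finset.range d, a.descFactorial (k - 1) - t)) ≤ Nat.card G ^ d := by
  obtain ⟨hfin, h⟩ := h
  have : Fact p.Prime := ⟨hp⟩
  rw [← Pool.Agent.H596L.card_Ix] at ht ⊢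
  refine Pool.Agent.H596L.count hk hn ht ?_
  intro H _ hH
  obtain ⟨K, ⟨e⟩⟩ := h H hH
  exact ⟨K.subtype.comp e.toMonoidHom, K.subtype_injective.comp e.injective⟩

/-- For every `ε > 0` there is `n₀` such that for all `n ≥ n₀` and all primes `p` the order
`m(p, n)` of a smallest finite group that contains every group of order `p ^ n` satisfies
`log_p m(p, n) ≥ (1 / 4 - ε) n ^ 2`. -/
theorem result (ε : ℝ) (hε : 0 < ε) : ∃ n₀ : ℕ, ∀ n ≥ n₀, ∀ p : ℕ, p.Prime →
    IsLeast (coverOrders p n) (minCoverOrder p n) ∧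
      (1 / 4 - ε) * (n : ℝ) ^ 2 ≤ Real.logb p (minCoverOrder p n) := by
  have hpos' : ∀ (n p : ℕ), p.Prime → IsLeast (coverOrders p n) (minCoverOrder p n) ∧
      0 < minCoverOrder p n := by
    intro n p hp
    have hne := coverOrders_nonempty p n hp
    have hleast : IsLeast (coverOrders p n) (minCoverOrder p n) :=
      ⟨Nat.sInf_mem hne, fun a ha => Nat.sInf_le ha⟩
    refine ⟨hleast, ?_⟩
    obtain ⟨G, iG, hcov, hcard⟩ := hleast.1
    have hfin : Finite G := hcov.1
    rw [← hcard]
    exact Nat.card_pos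
  rcases le_or_gt (1 / 4) ε with h4 | h4
  · refine ⟨0, fun n _ p hp => ?_⟩
    obtain ⟨hleast, hpos⟩ := hpos' n p hp
    refine ⟨hleast, ?_⟩
    have hp1 : (1 : ℝ) < p := by exact_mod_cast hp.one_lt
    have h1 : (0 : ℝ) ≤ Real.logb p (minCoverOrder p n) :=
      Real.logb_nonneg hp1 (by exact_mod_cast hpos)
    have h2 : (0 : ℝ) ≤ (n : ℝ) ^ 2 := by positivity
    nlinarith
  · obtain ⟨k, n₀, hk, hn₀⟩ := Pool.Agent.H596L.choice ε hε h4
    refine ⟨n₀, fun n hn p hp => ?_⟩
    obtain ⟨hleast, hpos⟩ := hpos' n p hp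
    refine ⟨hleast, ?_⟩
    obtain ⟨d, hd, h1, h2, h3⟩ := hn₀ n hn
    obtain ⟨G, iG, hcov, hcard⟩ := hleast.1
    have h5 := count p n k d (n / 2) hp hk h1 h2 G hcov
    rw [hcard] at h5
    have hp1 : (1 : ℝ) < p := by exact_mod_cast hp.one_lt
    have h6 : ((p : ℝ) ^ (n / 2 * (∑ a ∈ Finset.range d, a.descFactorial (k - 1) - n / 2)) : ℝ) ≤
        (minCoverOrder p n : ℝ) ^ d := by exact_mod_cast h5
    have h7 := Real.logb_le_logb_of_le hp1 (by positivity) h6
    rw [Real.logb_pow, Real.logb_pow, Real.logb_self_eq_one hp1, mul_one] at h7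
    have h8 := h3.trans h7
    have h9 : (0 : ℝ) < d := by exact_mod_cast hd
    rw [mul_comm] at h8
    exact le_of_mul_le_mul_left h8 h9

end Pool.Agent.Results.MP_1000ca_al.LowerQuarter
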