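import Mathlib
import Pool.Agent.H596Q.Mod

set_option autoImplicit false

namespace Pool.Agent.Results.MP_1000ca_al.UniformExplicit

/-- `G` is a finite group such that every group of order `p ^ n` is isomorphic to a
subgroup of `G`. -/
def IsCover (p n : ℕ) (G : Type) [Group G] : Prop :=
  Finite G ∧ ∀ (H : Type) [Group H], Nat.card H = p ^ n → ∃ K : Subgroup G, Nonempty (H ≃* K)

/-- The set of orders of the finite groups that contain every group of order `p ^ n`. -/
def coverOrders (p n : ℕ) : Set ℕ :=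
  {k | ∃ (G : Type) (_ : Group G), IsCover p n G ∧ Nat.card G = k}

/-- The order of a smallest finite group that contains every group of order `p ^ n`. -/
noncomputable def minCoverOrder (p n : ℕ) : ℕ := sInf (coverOrders p n)

/-- A family of embeddings gives a cover. -/
theorem isCover_of (p n : ℕ) (hp : p.Prime) (G : Type) [Group G] [Finite G]
    (h : ∀ (H : Type) [Group H] [Finite H], Nat.card H = p ^ n →
      ∃ f : H →* G, Function.Injective f) : IsCover p n G := by
  refine ⟨inferInstance, fun H _ hH => ?_⟩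
  have : Finite H := Nat.finite_of_card_ne_zero (by rw [hH]; exact pow_ne_zero _ hp.ne_zero)
  obtain ⟨f, hf⟩ := h H hH
  exact ⟨f.range, ⟨MonoidHom.ofInjective hf⟩⟩

/-- The symmetric group of degree `p ^ n` is a cover. -/
theorem perm_cover (p n : ℕ) (hp : p.Prime) : IsCover p n (Equiv.Perm (Fin (p ^ n))) := by
  refine isCover_of p n hp _ fun H _ _ hH => ?_
  have e : H ≃ Fin (p ^ n) := Finite.equivFinOfCardEq hH
  refine ⟨(Equiv.permCongrHom e).toMonoidHom.comp (MulAction.toPermHom H H), ?_⟩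
  show Function.Injective ((Equiv.permCongrHom e) ∘ (MulAction.toPermHom H H))
  exact (Equiv.permCongrHom e).injective.comp MulAction.toPerm_injective

theorem bound (p n : ℕ) (hp : p.Prime) : ∃ k ∈ coverOrders p n,
    k ≤ p ^ (n * (n * (n + 1) ^ (n + 1)) * (n * (n + 1) ^ (n + 1)) *
      Fintype.card (Pool.Agent.H596Q.Idx n (n * (n + 1) ^ (n + 1))) + n * n ^ n) := by
  rcases Nat.lt_or_ge n p with h | h
  · have : Fact p.Prime := ⟨hp⟩
    obtain ⟨h1, h2⟩ := Pool.Agent.H596Q.card_Un p n (n * (n + 1) ^ (n + 1))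
    refine ⟨_, ⟨Pool.Agent.H596Q.Un p n (n * (n + 1) ^ (n + 1)), inferInstance,
      isCover_of p n hp _ fun H _ _ hH => Pool.Agent.H596Q.exists_hom_Un hH h, rfl⟩, ?_⟩
    exact h2.trans (Nat.pow_le_pow_right hp.pos (Nat.le_add_right _ _))
  · refine ⟨_, ⟨_, inferInstance, perm_cover p n hp, rfl⟩, ?_⟩
    rw [Nat.card_perm, Nat.card_fin]
    calc (p ^ n).factorial ≤ (p ^ n) ^ (p ^ n) := Nat.factorial_le_pow _
      _ = p ^ (n * p ^ n) := by rw [← pow_mul]
      _ ≤ p ^ (n * n ^ n) :=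
        Nat.pow_le_pow_right hp.pos (Nat.mul_le_mul_left _ (Nat.pow_le_pow_left h _))
      _ ≤ _ := Nat.pow_le_pow_right hp.pos (Nat.le_add_left _ _)

theorem card_Idx (n K : ℕ) (hn : 1 ≤ n) :
    Fintype.card (Pool.Agent.H596Q.Idx n K) ≤ (n + 1) ^ (K + 1) := by
  rw [Fintype.card_sigma]
  simp only [Fintype.card_pi, Fintype.card_fin, Finset.prod_const, Finset.card_univ]
  rw [Fin.sum_univ_eq_sum_range (fun i => (n + 1) ^ i) (K + 1)]
  exact (Nat.geomSum_lt (by omega) (fun k hk => Finset.mem_range.1 hk)).le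

theorem exponent_le (n : ℕ) : n * (n * (n + 1) ^ (n + 1)) * (n * (n + 1) ^ (n + 1)) *
    Fintype.card (Pool.Agent.H596Q.Idx n (n * (n + 1) ^ (n + 1))) + n * n ^ n ≤
      (n + 1) ^ (n + 1) ^ (n + 3) := by
  rcases Nat.eq_zero_or_pos n with rfl | hn
  · simp
  · set K := n * (n + 1) ^ (n + 1) with hK
    have h1 := card_Idx n K hn
    have hN : 0 < n + 1 := by omega
    have h2 : K ≤ (n + 1) ^ (n + 2) := by
      rw [hK, pow_succ' (n + 1) (n + 1)]
      exact Nat.mul_le_mul_right _ (by omega)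
    have h3 : n * n ^ n ≤ (n + 1) ^ (n + 1) := by
      rw [← pow_succ']
      exact Nat.pow_le_pow_left (by omega) _
    have h4 : n * K * K * Fintype.card (Pool.Agent.H596Q.Idx n K) ≤
        (n + 1) ^ (2 * n + 6 + K) := by
      calc n * K * K * Fintype.card (Pool.Agent.H596Q.Idx n K)
          ≤ (n + 1) * (n + 1) ^ (n + 2) * (n + 1) ^ (n + 2) * (n + 1) ^ (K + 1) :=
            Nat.mul_le_mul (Nat.mul_le_mul (Nat.mul_le_mul (by omega) h2) h2) h1
        _ = (n + 1) ^ (2 * n + 6 + K) := by ring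
    have h5 : (n + 1) ^ (n + 1) ≤ (n + 1) ^ (2 * n + 6 + K) :=
      Nat.pow_le_pow_right hN (by omega)
    have h6 : n * K * K * Fintype.card (Pool.Agent.H596Q.Idx n K) + n * n ^ n ≤
        (n + 1) ^ (2 * n + 7 + K) := by
      have e : (n + 1) ^ (2 * n + 7 + K) = (n + 1) * (n + 1) ^ (2 * n + 6 + K) := by ring
      rw [e]
      have : 2 * (n + 1) ^ (2 * n + 6 + K) ≤ (n + 1) * (n + 1) ^ (2 * n + 6 + K) :=
        Nat.mul_le_mul_right _ (by omega)
      omega
    refine h6.trans (Nat.pow_le_pow_right hN ?_)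
    -- 2 n + 7 + n N ^ N ≤ N ^ (N + 2)
    have h7 : (n + 1) ^ (n + 3) = n * ((n + 1) ^ (n + 1) * (n + 1)) +
        (n + 1) ^ (n + 1) * (n + 1) := by ring
    have h8 : (n + 1) * (n + 1) ≤ (n + 1) ^ (n + 1) := by
      calc (n + 1) * (n + 1) = (n + 1) ^ 2 := by ring
        _ ≤ (n + 1) ^ (n + 1) := Nat.pow_le_pow_right hN (by omega)
    have h9 : K + K ≤ n * ((n + 1) ^ (n + 1) * (n + 1)) := by
      have e : n * ((n + 1) ^ (n + 1) * (n + 1)) = K * (n + 1) := by rw [hK]; ring
      rw [e]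
      nlinarith
    have h10 : (n + 1) * (n + 1) ≤ K := by
      rw [hK]
      nlinarith
    have h11 : (n + 1) * (n + 1) * (n + 1) ≤ (n + 1) ^ (n + 1) * (n + 1) :=
      Nat.mul_le_mul_right _ h8
    rw [h7]
    nlinarith

/-- For every prime `p` and every `n` the order `minCoverOrder p n` of a smallest finite group
containing every group of order `p ^ n` is at most `p ^ ((n + 1) ^ ((n + 1) ^ (n + 3)))`. -/
theorem result (p n : ℕ) (hp : p.Prime) :
    IsLeast (coverOrders p n) (minCoverOrder p n) ∧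
      minCoverOrder p n ≤ p ^ (n + 1) ^ (n + 1) ^ (n + 3) := by
  obtain ⟨k, hk, hle⟩ := bound p n hp
  exact ⟨⟨Nat.sInf_mem ⟨k, hk⟩, fun m hm => Nat.sInf_le hm⟩,
    ((Nat.sInf_le hk).trans hle).trans (Nat.pow_le_pow_right hp.pos (exponent_le n))⟩

end Pool.Agent.Results.MP_1000ca_al.UniformExplicit
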