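import Mathlib
import Pool.Agent.H596R3.CovUp2

set_option autoImplicit false

namespace Pool.Agent.Results.MP_1000ca_al.UpperBound

open Pool.Agent.H596R3.CovUp

/-- `G` is a finite group such that every group of order `p ^ n` is isomorphic to a
subgroup of `G`. -/
def IsCover (p n : ℕ) (G : Type) [Group G] : Prop :=
  Finite G ∧ ∀ (H : Type) [Group H], Nat.card H = p ^ n → ∃ K : Subgroup G, Nonempty (H ≃* K)

/-- The set of orders of the finite groups that contain every group of order `p ^ n`. -/
def coverOrders (p n : ℕ) : Set ℕ :=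
  {k | ∃ (G : Type) (_ : Group G), IsCover p n G ∧ Nat.card G = k}

/-- The order of a smallest finite group that contains every group of order `p ^ n`. -/
noncomputable def minCoverOrder (p n : ℕ) : ℕ := sInf (coverOrders p n)

/-- The order of the wreath product. -/
theorem card_Wr (p n k : ℕ) (hp : p.Prime) :
    Nat.card (Fin n → Wr (Fin (p ^ k)) (Multiplicative (ZMod (p ^ n)))) =
      ((p ^ n) ^ p ^ k * (p ^ k).factorial) ^ n := by
  have h1 : Nat.card (Wr (Fin (p ^ k)) (Multiplicative (ZMod (p ^ n)))) =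
      (p ^ n) ^ p ^ k * (p ^ k).factorial := by
    rw [Nat.card_congr SemidirectProduct.equivProd, Nat.card_prod, Nat.card_fun,
      Nat.card_perm, Nat.card_fin]
    congr 2
    exact Nat.card_zmod _
  rw [Nat.card_fun, h1, Nat.card_fin]

theorem cover (p n : ℕ) (hp : p.Prime) :
    ∃ k ∈ coverOrders p n, k ≤ p ^ (n * (n + 1) * p ^ ((n - 1) / 2)) := by
  haveI : Fact p.Prime := ⟨hp⟩
  haveI : NeZero (p ^ n) := ⟨pow_ne_zero _ hp.ne_zero⟩
  haveI : Finite (Multiplicative (ZMod (p ^ n))) := inferInstanceAs (Finite (ZMod (p ^ n)))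
  haveI hfW : Finite (Wr (Fin (p ^ ((n - 1) / 2))) (Multiplicative (ZMod (p ^ n)))) :=
    Finite.of_equiv _ SemidirectProduct.equivProd.symm
  let U := Fin n → Wr (Fin (p ^ ((n - 1) / 2))) (Multiplicative (ZMod (p ^ n)))
  haveI : Finite U := Pi.finite
  obtain ⟨P⟩ : Nonempty (Sylow p U) := inferInstance
  refine ⟨Nat.card P, ⟨P, inferInstance, ⟨inferInstance, ?_⟩, rfl⟩, ?_⟩
  · intro H _ hH
    haveI : Finite H := Nat.finite_of_card_ne_zero (by rw [hH]; exact pow_ne_zero _ hp.ne_zero)
    obtain ⟨Θ, hΘ⟩ := exists_emb hH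
    have hpH : IsPGroup p H := IsPGroup.of_card hH
    have hr : IsPGroup p Θ.range := hpH.of_surjective Θ.rangeRestrict Θ.rangeRestrict_surjective
    obtain ⟨Q, hQ⟩ := hr.exists_le_sylow
    let e : Q ≃* P := Sylow.equiv Q P
    let f : H →* P := e.toMonoidHom.comp ((Subgroup.inclusion hQ).comp Θ.rangeRestrict)
    have hf : Function.Injective f := by
      intro a b hab
      have h1 := e.injective hab
      have h2 := Subgroup.inclusion_injective hQ h1
      have h3 : Θ a = Θ b := congrArg Subtype.val h2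
      exact hΘ h3
    exact ⟨f.range, ⟨MonoidHom.ofInjective hf⟩⟩
  · rw [Sylow.card_eq_multiplicity]
    apply Nat.pow_le_pow_right hp.pos
    have h1 : Nat.card U = ((p ^ n) ^ p ^ ((n - 1) / 2) * (p ^ ((n - 1) / 2)).factorial) ^ n :=
      card_Wr p n _ hp
    rw [h1, Nat.factorization_pow, Finsupp.smul_apply, smul_eq_mul,
      Nat.factorization_mul (pow_ne_zero _ (pow_ne_zero _ hp.ne_zero)) (Nat.factorial_ne_zero _),
      Finsupp.add_apply, ← pow_mul, hp.factorization_pow, Finsupp.single_eq_same, mul_assoc]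
    apply Nat.mul_le_mul_left
    have h2 : ((p ^ ((n - 1) / 2)).factorial).factorization p ≤ p ^ ((n - 1) / 2) := by
      refine (Nat.factorization_factorial_le_div_pred hp _).trans (Nat.div_le_self _ _)
    calc n * p ^ ((n - 1) / 2) + ((p ^ ((n - 1) / 2)).factorial).factorization p
        ≤ n * p ^ ((n - 1) / 2) + p ^ ((n - 1) / 2) := by omega
      _ = (n + 1) * p ^ ((n - 1) / 2) := by ring

/-- For every prime `p` and every `n`, `minCoverOrder p n` is the order of a smallest finite group
containing every group of order `p ^ n`, and it is at most `p ^ (n (n + 1) p ^ ⌊(n - 1) / 2⌋)`. -/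
theorem result : ∀ (p n : ℕ), p.Prime →
    IsLeast (coverOrders p n) (minCoverOrder p n) ∧
      minCoverOrder p n ≤ p ^ (n * (n + 1) * p ^ ((n - 1) / 2)) := by
  intro p n hp
  obtain ⟨k, hk, hle⟩ := cover p n hp
  refine ⟨⟨Nat.sInf_mem ⟨k, hk⟩, fun m hm => Nat.sInf_le hm⟩, (Nat.sInf_le hk).trans hle⟩

end Pool.Agent.Results.MP_1000ca_al.UpperBound
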